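import Mathlib

namespace Pool.Agent.P.MP_4722b0_al

open Polynomial Module

variable {K : Type*} [Field K]

/-- The tridiagonal matrix by which the two by two matrix with columns (a, c), (b, e) acts on the
`d`-th symmetric power. -/
def symT (d : ℕ) (a b c e : K) : Matrix (Fin (d + 1)) (Fin (d + 1)) K := fun j i =>
  (if (j : ℕ) = i then ((d - i : ℕ) : K) * a + (i : ℕ) * e else 0) +
  (if (j : ℕ) = i + 1 then ((d - i : ℕ) : K) * c else 0) +
  (if (j : ℕ) + 1 = i then ((i : ℕ) : K) * b else 0)

/-- The first order differential operator `p ↦ d L p + Q p'`. -/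
noncomputable def opD (d : ℕ) (L Q : K[X]) : K[X] →ₗ[K] K[X] :=
  (d : K) • LinearMap.mulLeft K L + LinearMap.mulLeft K Q ∘ₗ Polynomial.derivative

lemma opD_apply (d : ℕ) (L Q p : K[X]) :
    opD d L Q p = (d : K[X]) * (L * p) + Q * derivative p := by
  simp [opD, Polynomial.smul_eq_C_mul]

lemma sum_ite_smul {n : ℕ} (k : ℕ) (x : K) (f : ℕ → K[X]) :
    ∑ j : Fin n, (if (j : ℕ) = k then x else 0) • f j = if k < n then x • f k else 0 := by
  split_ifs with h
  · rw [Finset.sum_eq_single (⟨k, h⟩ : Fin n)]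
    · simp
    · intro j _ hj
      rw [if_neg, zero_smul]
      intro hk
      exact hj (Fin.ext hk)
    · simp
  · apply Finset.sum_eq_zero
    intro j _
    rw [if_neg, zero_smul]
    intro hk
    exact h (hk ▸ j.2)

lemma opD_mon (m i : ℕ) (L Q u v : K[X]) (a b c e : K)
    (hu : L * u + Q * derivative u = C a * u + C c * v)
    (hv : L * v + Q * derivative v = C b * u + C e * v) :
    opD (m + i) L Q (u ^ m * v ^ i) =
      ((m : K) * a + (i : K) * e) • (u ^ m * v ^ i) +
      ((m : K) * c) • (u ^ (m - 1) * v ^ (i + 1)) +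
      ((i : K) * b) • (u ^ (m + 1) * v ^ (i - 1)) := by
  rw [opD_apply]
  simp only [Polynomial.smul_eq_C_mul, map_add, map_mul, map_natCast, derivative_mul,
    derivative_pow, Nat.cast_add]
  rcases m with _ | m <;> rcases i with _ | i
  · simp
  · simp only [Nat.add_sub_cancel, Nat.cast_zero, pow_zero, Nat.cast_add, Nat.cast_one]
    linear_combination ((i : K[X]) + 1) * v ^ i * hv
  · simp only [Nat.add_sub_cancel, Nat.cast_zero, pow_zero, Nat.cast_add, Nat.cast_one]
    linear_combination ((m : K[X]) + 1) * u ^ m * hu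
  · simp only [Nat.add_sub_cancel, Nat.cast_add, Nat.cast_one]
    linear_combination ((m : K[X]) + 1) * u ^ m * v ^ (i + 1) * hu +
      ((i : K[X]) + 1) * u ^ (m + 1) * v ^ i * hv

lemma opD_mon_sum (d : ℕ) (L Q u v : K[X]) (a b c e : K)
    (hu : L * u + Q * derivative u = C a * u + C c * v)
    (hv : L * v + Q * derivative v = C b * u + C e * v) (i : Fin (d + 1)) :
    opD d L Q (u ^ (d - i) * v ^ (i : ℕ)) =
      ∑ j : Fin (d + 1), symT d a b c e j i • (u ^ (d - j) * v ^ (j : ℕ)) := by
  obtain ⟨i, hi⟩ := i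
  obtain ⟨m, rfl⟩ : ∃ m, d = m + i := ⟨d - i, by omega⟩
  simp only [symT, add_smul, Finset.sum_add_distrib, Nat.add_sub_cancel]
  rw [opD_mon m i L Q u v a b c e hu hv]
  rw [sum_ite_smul i _ (fun j => u ^ (m + i - j) * v ^ j),
    sum_ite_smul (i + 1) _ (fun j => u ^ (m + i - j) * v ^ j)]
  congr 1
  · congr 1
    · rw [if_pos hi, Nat.add_sub_cancel]
    · rcases m with _ | m
      · simp
      · rw [if_pos (by omega)]
        congr 3
        omega
  · rcases i with _ | i
    · simp
    · simp only [Nat.add_right_cancel_iff]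
      rw [sum_ite_smul i _ (fun j => u ^ (m + (i + 1) - j) * v ^ j), if_pos (by omega)]
      congr 3
      omega

section
variable {V : Type*} [AddCommGroup V] [Module K V] {d : ℕ} (b0 : Basis (Fin (d + 1)) K V)

/-- Identify `V` with the polynomials of degree at most `d`. -/
noncomputable def emb : V →ₗ[K] K[X] := b0.constr K fun j => X ^ (j : ℕ)

lemma emb_basis (j : Fin (d + 1)) : emb b0 (b0 j) = X ^ (j : ℕ) := by simp [emb]

lemma emb_injective : Function.Injective (emb b0) := by
  rw [injective_iff_map_eq_zero]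
  intro x hx
  rw [← b0.sum_repr x] at hx ⊢
  simp only [map_sum, map_smul, emb_basis] at hx
  apply Finset.sum_eq_zero
  intro j _
  have := congrArg (fun p => Polynomial.coeff p j) hx
  simp only [finsetSum_coeff, coeff_smul, coeff_X_pow, coeff_zero, smul_eq_mul, mul_ite, mul_one,
    mul_zero] at this
  rw [Finset.sum_eq_single j] at this
  · simp at this
    simp [this]
  · intro k _ hk
    rw [if_neg]
    intro h
    exact hk (Fin.ext h.symm)
  · simp

/-- The vector with the coefficients of a polynomial as coordinates. -/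
noncomputable def vec (p : K[X]) : V := ∑ j : Fin (d + 1), p.coeff j • b0 j

lemma emb_vec (p : K[X]) (hp : p.natDegree ≤ d) : emb b0 (vec b0 p) = p := by
  simp only [vec, map_sum, map_smul, emb_basis]
  conv_rhs => rw [p.as_sum_range' (d + 1) (by omega)]
  rw [Finset.sum_range (fun i => monomial i (p.coeff i))]
  refine Finset.sum_congr rfl fun j _ => ?_
  rw [Polynomial.smul_eq_C_mul, C_mul_X_pow_eq_monomial]

lemma emb_toLin (L Q : K[X]) (a b c e : K)
    (hu : L * 1 + Q * derivative 1 = C a * 1 + C c * X)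
    (hv : L * X + Q * derivative X = C b * 1 + C e * X) (x : V) :
    emb b0 (Matrix.toLin b0 b0 (symT d a b c e) x) = opD d L Q (emb b0 x) := by
  have : emb b0 ∘ₗ Matrix.toLin b0 b0 (symT d a b c e) = opD d L Q ∘ₗ emb b0 := by
    refine b0.ext fun i => ?_
    have h := opD_mon_sum d L Q 1 X a b c e hu hv i
    simp only [one_pow, one_mul] at h
    simp only [LinearMap.comp_apply, Matrix.toLin_self, map_sum, map_smul, emb_basis, h]
  exact LinearMap.congr_fun this x

/-- The family of vectors given by the products `u ^ (d - i) * v ^ i`. -/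
noncomputable def fam (u v : K[X]) (i : Fin (d + 1)) : V := vec b0 (u ^ (d - i) * v ^ (i : ℕ))

lemma emb_fam (u v : K[X]) (hu : u.natDegree ≤ 1) (hv : v.natDegree ≤ 1) (i : Fin (d + 1)) :
    emb b0 (fam b0 u v i) = u ^ (d - i) * v ^ (i : ℕ) := by
  apply emb_vec
  have h1 : (u ^ (d - i)).natDegree ≤ (d - i) * 1 := natDegree_pow_le_of_le _ hu
  have h2 : (v ^ (i : ℕ)).natDegree ≤ (i : ℕ) * 1 := natDegree_pow_le_of_le _ hv
  have h3 := natDegree_mul_le (p := u ^ (d - i)) (q := v ^ (i : ℕ))
  have := i.2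
  omega

lemma apply_fam (T : V →ₗ[K] V) (L Q u v : K[X]) (hT : ∀ x, emb b0 (T x) = opD d L Q (emb b0 x))
    (hu1 : u.natDegree ≤ 1) (hv1 : v.natDegree ≤ 1) (a b c e : K)
    (hu : L * u + Q * derivative u = C a * u + C c * v)
    (hv : L * v + Q * derivative v = C b * u + C e * v) (i : Fin (d + 1)) :
    T (fam b0 u v i) = ∑ j, symT d a b c e j i • fam b0 u v j := by
  apply emb_injective b0
  rw [hT, emb_fam b0 u v hu1 hv1, opD_mon_sum d L Q u v a b c e hu hv]
  simp only [map_sum, map_smul, emb_fam b0 u v hu1 hv1]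

lemma symT_diag (a e : K) (j i : Fin (d + 1)) :
    symT d a 0 0 e j i = if j = i then ((d - i : ℕ) : K) * a + (i : ℕ) * e else 0 := by
  simp [symT, Fin.ext_iff]

lemma exists_basis [CharZero K] (T : V →ₗ[K] V) (L Q u v : K[X])
    (hT : ∀ x, emb b0 (T x) = opD d L Q (emb b0 x))
    (hu1 : u.natDegree ≤ 1) (hv1 : v.natDegree ≤ 1) (hu0 : u ≠ 0) (hv0 : v ≠ 0) (a e : K)
    (hae : a ≠ e)
    (hu : L * u + Q * derivative u = C a * u + C 0 * v)
    (hv : L * v + Q * derivative v = C 0 * u + C e * v) :
    ∃ b : Basis (Fin (d + 1)) K V, ∀ i, b i = fam b0 u v i := by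
  have hli : LinearIndependent K (fam b0 u v) := by
    refine Module.End.eigenvectors_linearIndependent' (T : Module.End K V)
      (fun i : Fin (d + 1) => ((d - i : ℕ) : K) * a + (i : ℕ) * e) ?_ _ ?_
    · intro i j hij
      have hi : (i : ℕ) ≤ d := by have := i.2; omega
      have hj : (j : ℕ) ≤ d := by have := j.2; omega
      simp only [Nat.cast_sub hi, Nat.cast_sub hj] at hij
      have : ((i : ℕ) - (j : ℕ) : K) * (e - a) = 0 := by linear_combination hij
      rcases mul_eq_zero.1 this with h | h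
      · exact Fin.ext (Nat.cast_injective (R := K) (sub_eq_zero.1 h))
      · exact absurd (sub_eq_zero.1 h).symm hae
    · intro i
      refine ⟨?_, ?_⟩
      · rw [Module.End.mem_eigenspace_iff, apply_fam b0 T L Q u v hT hu1 hv1 a 0 0 e hu hv]
        simp [symT_diag]
      · intro h
        have := emb_fam b0 u v hu1 hv1 i
        rw [h, map_zero] at this
        exact mul_ne_zero (pow_ne_zero _ hu0) (pow_ne_zero _ hv0) this.symm
  refine ⟨basisOfLinearIndependentOfCardEqFinrank hli (by simp [finrank_eq_card_basis b0]), ?_⟩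
  intro i
  simp

lemma toMatrix_fam (b : Basis (Fin (d + 1)) K V) (T : V →ₗ[K] V) (L Q u v : K[X])
    (hb : ∀ i, b i = fam b0 u v i)
    (hT : ∀ x, emb b0 (T x) = opD d L Q (emb b0 x))
    (hu1 : u.natDegree ≤ 1) (hv1 : v.natDegree ≤ 1) (a b' c e : K)
    (hu : L * u + Q * derivative u = C a * u + C c * v)
    (hv : L * v + Q * derivative v = C b' * u + C e * v) :
    LinearMap.toMatrix b b T = symT d a b' c e := by
  ext j i
  rw [LinearMap.toMatrix_apply, hb, apply_fam b0 T L Q u v hT hu1 hv1 a b' c e hu hv]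
  simp only [← hb, map_sum, map_smul, Basis.repr_self, Finsupp.coe_finsetSum, Finset.sum_apply,
    Finsupp.coe_smul, Pi.smul_apply, Finsupp.single_apply, smul_eq_mul, mul_ite, mul_one, mul_zero]
  simp

end

end Pool.Agent.P.MP_4722b0_al
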